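import Pool.Agent.H377R2.NK.Fin
import Pool.Agent.H377R2.NK.CountLow
import Pool.Agent.H377R2.NK.Lower

/-!
Growth of the trees of inverse iterates of the `3x+1` map (the Lagarias-Weiss conjecture).
-/

set_option autoImplicit false

namespace Pool.Agent.Results.MP_e7ed3f_nt.TreeGrowthConstant

open Filter Topology

/-- the `3x+1` function -/
def T (n : ℕ) : ℕ := if n % 2 = 0 then n / 2 else (3 * n + 1) / 2

/-- `N_k(a)`, the number of positive integers `n` with `T^(k)(n) = a` -/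
noncomputable def N (k a : ℕ) : ℕ := Set.ncard {n : ℕ | 1 ≤ n ∧ T^[k] n = a}

theorem T_eq : T = fun m : ℕ => if m % 2 = 0 then m / 2 else (3 * m + 1) / 2 := rfl

theorem iter_zero (k : ℕ) : T^[k] 0 = 0 := by
  induction k with
  | zero => rfl
  | succ k ih => rw [Function.iterate_succ_apply']; rw [ih]; rfl

theorem set_eq (k a : ℕ) (ha : ¬ 3 ∣ a) : {n : ℕ | 1 ≤ n ∧ T^[k] n = a} =
    {m : ℕ | (fun m : ℕ => if m % 2 = 0 then m / 2 else (3 * m + 1) / 2)^[k] m = a} := by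
  ext n
  constructor
  · rintro ⟨_, h⟩
    exact h
  · intro h
    refine ⟨?_, h⟩
    rcases Nat.eq_zero_or_pos n with h0 | h0
    · exfalso
      subst h0
      have h1 : T^[k] 0 = a := h
      rw [iter_zero] at h1
      exact ha (h1 ▸ dvd_zero 3)
    · exact h0

theorem main {ε : ℝ} (hε : 0 < ε) : ∃ K : ℕ, ∀ k : ℕ, K ≤ k → ∀ a : ℕ, ¬ 3 ∣ a →
    (4 / 3 : ℝ) ^ ((1 - ε) * (k : ℝ)) ≤ (N k a : ℝ) ∧
      (N k a : ℝ) ≤ (4 / 3 : ℝ) ^ ((1 + ε) * (k : ℝ)) := by
  obtain ⟨K₁, hK₁⟩ := Pool.Agent.H377R2.NK.lower hε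
  obtain ⟨K₂, hK₂⟩ := Pool.Agent.H377R2.NK.nat_upper hε
  refine ⟨max K₁ K₂, fun k hk a ha => ⟨?_, ?_⟩⟩
  · have h3 : ¬ (3 : ℤ) ∣ (a : ℤ) := by omega
    refine (hK₁ k ((le_max_left K₁ K₂).trans hk) (a : ℤ) h3).trans ?_
    have h4 := Pool.Agent.H377R2.NK.Npr_le_ncard k a (by omega)
    have h5 := Set.ncard_le_ncard (s := {m : ℕ |
              (fun n : ℕ => if n % 2 = 0 then n / 2 else (3 * n + 1) / 2)^[k] m = a ∧
              ∀ j : ℕ, j ≤ k →
                (fun n : ℕ => if n % 2 = 0 then n / 2 else (3 * n + 1) / 2)^[j] m % 3 ≠ 0})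
      (t := {m : ℕ | (fun m : ℕ => if m % 2 = 0 then m / 2 else (3 * m + 1) / 2)^[k] m = a})
      (fun m hm => hm.1) (Pool.Agent.H377R2.NK.nat_fin k a).1
    have h6 := h4.trans h5
    unfold N
    rw [set_eq k a ha]
    exact_mod_cast h6
  · have h := hK₂ k ((le_max_right K₁ K₂).trans hk) a
    unfold N
    rw [set_eq k a ha]
    exact h

/-- **Inverse trees of the `3x+1` map grow exactly like `(4/3)^k`**: uniformly in the root `a` prime
to `3`, the number of positive integers reaching `a` in exactly `k` steps is finite and lies between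
`(4/3)^((1-ε)k)` and `(4/3)^((1+ε)k)` for all large `k`.  In particular `log N_k(a) / k` converges
to `log (4/3)`, which is therefore also its upper limit. -/
theorem result :
    (∀ k a : ℕ, ¬ 3 ∣ a → {n : ℕ | 1 ≤ n ∧ T^[k] n = a}.Finite) ∧
    (∀ ε : ℝ, 0 < ε → ∃ K : ℕ, ∀ k : ℕ, K ≤ k → ∀ a : ℕ, ¬ 3 ∣ a →
      (4 / 3 : ℝ) ^ ((1 - ε) * (k : ℝ)) ≤ (N k a : ℝ) ∧
        (N k a : ℝ) ≤ (4 / 3 : ℝ) ^ ((1 + ε) * (k : ℝ))) ∧
    (∀ a : ℕ, ¬ 3 ∣ a →
      Tendsto (fun k : ℕ => Real.log (N k a : ℝ) / (k : ℝ)) atTop (𝓝 (Real.log (4 / 3)))) ∧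
    (∀ a : ℕ, ¬ 3 ∣ a →
      limsup (fun k : ℕ => Real.log (N k a : ℝ) / (k : ℝ)) atTop = Real.log (4 / 3)) := by
  have hlim : ∀ a : ℕ, ¬ 3 ∣ a →
      Tendsto (fun k : ℕ => Real.log (N k a : ℝ) / (k : ℝ)) atTop (𝓝 (Real.log (4 / 3))) := by
    intro a ha
    have hL : 0 < Real.log (4 / 3) := Real.log_pos (by norm_num)
    rw [Metric.tendsto_atTop]
    intro δ hδ
    obtain ⟨K, hK⟩ := main (ε := δ / (2 * Real.log (4 / 3))) (by positivity)
    refine ⟨max K 1, fun k hk => ?_⟩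
    have hk1 : (1 : ℝ) ≤ k := by exact_mod_cast (le_max_right K 1).trans hk
    have hk0 : (0 : ℝ) < k := by linarith
    obtain ⟨h1, h2⟩ := hK k ((le_max_left K 1).trans hk) a ha
    have hN : (0 : ℝ) < (N k a : ℝ) := lt_of_lt_of_le (Real.rpow_pos_of_pos (by norm_num) _) h1
    have h3 := Real.log_le_log (Real.rpow_pos_of_pos (by norm_num) _) h1
    have h4 := Real.log_le_log hN h2
    rw [Real.log_rpow (by norm_num)] at h3 h4
    have h5 : δ / (2 * Real.log (4 / 3)) * Real.log (4 / 3) = δ / 2 := by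
      field_simp
    have h6 : (1 - δ / (2 * Real.log (4 / 3))) * k * Real.log (4 / 3) =
        (Real.log (4 / 3) - δ / 2) * k := by
      rw [← h5]; ring
    have h7 : (1 + δ / (2 * Real.log (4 / 3))) * k * Real.log (4 / 3) =
        (Real.log (4 / 3) + δ / 2) * k := by
      rw [← h5]; ring
    rw [h6] at h3
    rw [h7] at h4
    rw [Real.dist_eq, abs_lt]
    constructor
    · have : Real.log (4 / 3) - δ / 2 ≤ Real.log (N k a : ℝ) / k := by
        rw [le_div_iff₀ hk0]; exact h3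
      linarith
    · have : Real.log (N k a : ℝ) / k ≤ Real.log (4 / 3) + δ / 2 := by
        rw [div_le_iff₀ hk0]; exact h4
      linarith
  refine ⟨fun k a ha => ?_, fun ε hε => main hε, hlim, fun a ha => (hlim a ha).limsup_eq⟩
  rw [set_eq k a ha]
  exact (Pool.Agent.H377R2.NK.nat_fin k a).1

end Pool.Agent.Results.MP_e7ed3f_nt.TreeGrowthConstant
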